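import Mathlib
import Pool.Agent.N541.LV.Stm

/-! # LV/IDX: the index lemma -/

set_option autoImplicit false
set_option linter.all false

open scoped Classical

namespace Pool.Agent.N916.LV.Idx

open Finset
open Pool.Agent.N541.LV

variable {d : ℕ}

theorem ev_add (Q Q' : Fin d → ℤ) (t : ℤ) : ev (Q + Q') t = ev Q t + ev Q' t := by
  simp [ev, add_mul, Finset.sum_add_distrib]

theorem ev_neg (Q : Fin d → ℤ) (t : ℤ) : ev (-Q) t = - ev Q t := by
  simp [ev, Finset.sum_neg_distrib]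

theorem ev_sub (Q Q' : Fin d → ℤ) (t : ℤ) : ev (Q - Q') t = ev Q t - ev Q' t := by
  rw [sub_eq_add_neg, ev_add, ev_neg, sub_eq_add_neg]

theorem ev_smul (n : ℤ) (Q : Fin d → ℤ) (t : ℤ) : ev (n • Q) t = n * ev Q t := by
  unfold ev
  rw [mul_sum]
  exact sum_congr rfl fun l _ => by rw [Pi.smul_apply, smul_eq_mul]; ring

theorem ev_sum {ι : Type} (s : Finset ι) (f : ι → Fin d → ℤ) (t : ℤ) :
    ev (∑ i ∈ s, f i) t = ∑ i ∈ s, ev (f i) t := by
  induction s using Finset.induction_on with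
  | empty => simp [ev]
  | insert a s ha ih => rw [sum_insert ha, sum_insert ha, ev_add, ih]

theorem mem_pts {Λ : AddSubgroup (Fin d → ℤ)} {R : Fin d → ℕ} {Q : Fin d → ℤ} :
    Q ∈ pts Λ R ↔ (∀ l, |Q l| ≤ (R l : ℤ)) ∧ Q ∈ Λ := by
  unfold pts Pool.Agent.N541.LV.box
  rw [mem_filter, Fintype.mem_piFinset]
  constructor
  · rintro ⟨h1, h2⟩
    exact ⟨fun l => abs_le.2 (mem_Icc.1 (h1 l)), h2⟩
  · rintro ⟨h1, h2⟩
    exact ⟨fun l => mem_Icc.2 (abs_le.1 (h1 l)), h2⟩

theorem mem_sub {m : ℕ} {Λ : AddSubgroup (Fin d → ℤ)} {o : Fin m → ℕ} {z : ℕ} {Q : Fin d → ℤ} :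
    Q ∈ sub Λ o z ↔ Q ∈ Λ ∧ Mo o z ∣ ev Q z := Iff.rfl

theorem rat_add (Q Q' : Fin d → ℤ) : rat (Q + Q') = rat Q + rat Q' := by
  funext l
  simp [rat]

theorem rat_smul (n : ℤ) (Q : Fin d → ℤ) : rat (n • Q) = (n : ℚ) • rat Q := by
  funext l
  simp [rat]

theorem main (hC : COVStm) : IDXStm := by
  intro d m Λ R o z g hR hM hrk hg hgM hQ
  obtain ⟨Q0, hQ0, hQ0M⟩ := hQ
  set M : ℤ := Mo o z with hMdef
  set L : AddSubgroup (Fin d → ℤ) := sub Λ o z with hL
  have hsub : ∀ Q, Q ∈ pts L R → Q ∈ pts Λ R := by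
    intro Q hQ
    rw [mem_pts] at hQ ⊢
    exact ⟨hQ.1, (mem_sub.1 hQ.2).1⟩
  have hsp : sp L R = sp Λ R := by
    refine Submodule.eq_of_le_of_finrank_eq ?_ hrk
    refine Submodule.span_mono ?_
    rintro _ ⟨Q, hQ, rfl⟩
    exact ⟨Q, hsub Q hQ, rfl⟩
  -- the basis
  obtain ⟨b, hb1, hb2, hb3⟩ := exists_linearIndependent ℚ (rat '' (pts L R : Set (Fin d → ℤ)))
  have hbf : b.Finite := hb3.setFinite
  set B : Finset (Fin d → ℚ) := hbf.toFinset with hB
  have hBb : (B : Set (Fin d → ℚ)) = b := hbf.coe_toFinset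
  have hBc : B.card ≤ d := by
    haveI : Fintype b := hbf.fintype
    have h1 := hb3.fintype_card_le_finrank
    rw [Module.finrank_fin_fun] at h1
    have h2 : B.card = Fintype.card b := by
      rw [hB, Set.Finite.card_toFinset]
    exact h2.trans_le h1
  have hw : ∀ v ∈ B, ∃ w ∈ pts L R, rat w = v := by
    intro v hv
    have h1 : v ∈ b := by rw [← hBb]; exact hv
    obtain ⟨w, hw1, hw2⟩ := hb1 h1
    exact ⟨w, hw1, hw2⟩
  choose! w hw1 hw2 using hw
  -- the span
  have hcl : ∀ Q ∈ AddSubgroup.closure (pts Λ R : Set (Fin d → ℤ)), rat Q ∈ sp Λ R := by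
    intro Q hQ
    refine AddSubgroup.closure_induction (p := fun Q _ => rat Q ∈ sp Λ R) ?_ ?_ ?_ ?_ hQ
    · intro x hx
      exact Submodule.subset_span ⟨x, hx, rfl⟩
    · have : rat (0 : Fin d → ℤ) = 0 := by funext l; simp [rat]
      rw [this]; exact Submodule.zero_mem _
    · intro x y _ _ hx hy
      rw [rat_add]; exact Submodule.add_mem _ hx hy
    · intro x _ hx
      have : rat (-x) = - rat x := by funext l; simp [rat]
      rw [this]; exact Submodule.neg_mem _ hx
  have hclΛ : ∀ Q ∈ AddSubgroup.closure (pts Λ R : Set (Fin d → ℤ)), Q ∈ Λ := by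
    intro Q hQ
    have h1 : AddSubgroup.closure (pts Λ R : Set (Fin d → ℤ)) ≤ Λ := by
      rw [AddSubgroup.closure_le]
      intro x hx
      exact (mem_pts.1 hx).2
    exact h1 hQ
  have hr : ∀ a : ℕ, ∃ r : (Fin d → ℚ) → ℚ, ∑ v ∈ B, r v • v = rat ((a : ℤ) • Q0) := by
    intro a
    have h1 : rat ((a : ℤ) • Q0) ∈ sp Λ R := hcl _ (AddSubgroup.zsmul_mem _ hQ0 _)
    rw [← hsp] at h1
    unfold sp at h1
    rw [← hb2, ← hBb, Submodule.mem_span_finset] at h1
    obtain ⟨f, _, hf⟩ := h1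
    exact ⟨f, hf⟩
  choose r hr using hr
  set Qa : ℕ → Fin d → ℤ := fun a => (a : ℤ) • Q0 - ∑ v ∈ B, ⌊r a v⌋ • w v with hQa
  have hQaΛ : ∀ a, Qa a ∈ Λ := by
    intro a
    refine AddSubgroup.sub_mem _ (AddSubgroup.zsmul_mem _ (hclΛ _ hQ0) _) ?_
    refine AddSubgroup.sum_mem _ fun v hv => AddSubgroup.zsmul_mem _ ?_ _
    exact (mem_sub.1 (mem_pts.1 (hw1 v hv)).2).1
  have hQaev : ∀ a, M ∣ ev (Qa a) z - a * g := by
    intro a
    have h1 : ev (Qa a) z - a * g = a * (ev Q0 z - g) - ∑ v ∈ B, ⌊r a v⌋ * ev (w v) z := by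
      rw [hQa]
      simp only
      rw [ev_sub, ev_smul, ev_sum]
      have h2 : ∑ v ∈ B, ev (⌊r a v⌋ • w v) (z : ℤ) = ∑ v ∈ B, ⌊r a v⌋ * ev (w v) z :=
        sum_congr rfl fun v _ => ev_smul _ _ _
      rw [h2]
      ring
    rw [h1]
    refine dvd_sub (Dvd.dvd.mul_left hQ0M _) (dvd_sum fun v hv => Dvd.dvd.mul_left ?_ _)
    exact (mem_sub.1 (mem_pts.1 (hw1 v hv)).2).2
  have hQabd : ∀ a l, |Qa a l| ≤ (d * R l : ℤ) := by
    intro a l
    have h1 : ((Qa a l : ℤ) : ℚ) = ∑ v ∈ B, Int.fract (r a v) * v l := by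
      have h2 := congrFun (hr a) l
      rw [Finset.sum_apply] at h2
      have h3 : ((Qa a l : ℤ) : ℚ) = rat ((a : ℤ) • Q0) l - ∑ v ∈ B, (⌊r a v⌋ : ℚ) * (w v l : ℚ) := by
        rw [hQa]
        simp only
        rw [Pi.sub_apply, Finset.sum_apply]
        push_cast
        congr 1
        exact sum_congr rfl fun v _ => by
          rw [Pi.smul_apply, smul_eq_mul]; push_cast; ring
      rw [h3, ← h2, ← sum_sub_distrib]
      refine sum_congr rfl fun v hv => ?_
      have h4 : (w v l : ℚ) = v l := congrFun (hw2 v hv) l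
      rw [h4, Pi.smul_apply, smul_eq_mul, ← sub_mul, Int.self_sub_floor]
    have h5 : |((Qa a l : ℤ) : ℚ)| ≤ d * R l := by
      rw [h1]
      refine (abs_sum_le_sum_abs _ _).trans ?_
      have h6 : ∀ v ∈ B, |Int.fract (r a v) * v l| ≤ (R l : ℚ) := by
        intro v hv
        have h4 : (w v l : ℚ) = v l := congrFun (hw2 v hv) l
        have h7 := (mem_pts.1 (hw1 v hv)).1 l
        have h8 : |v l| ≤ (R l : ℚ) := by
          rw [← h4]
          exact_mod_cast h7
        rw [abs_mul, abs_of_nonneg (Int.fract_nonneg _)]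
        calc Int.fract (r a v) * |v l| ≤ 1 * |v l| :=
              mul_le_mul_of_nonneg_right (Int.fract_lt_one _).le (abs_nonneg _)
          _ = |v l| := one_mul _
          _ ≤ _ := h8
      refine (sum_le_sum h6).trans ?_
      rw [sum_const, nsmul_eq_mul]
      refine mul_le_mul_of_nonneg_right ?_ (by positivity)
      exact_mod_cast hBc
    exact_mod_cast h5
  -- the injection
  set I : ℕ := M.natAbs / g with hI
  have hgn : g ∣ M.natAbs := by
    have := Int.natAbs_dvd_natAbs.2 hgM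
    simpa using this
  have hIg : I * g = M.natAbs := Nat.div_mul_cancel hgn
  have hinj : I * (pts L R).card ≤ (pts Λ (fun l => (d + 1) * R l)).card := by
    have h1 : (range I ×ˢ pts L R).card = I * (pts L R).card := by
      rw [card_product, card_range]
    rw [← h1]
    refine card_le_card_of_injOn (fun q => Qa q.1 + q.2) ?_ ?_
    · intro q hq
      have hq' := mem_product.1 (mem_coe.1 hq)
      rw [mem_coe, mem_pts]
      have h2 := mem_pts.1 hq'.2
      refine ⟨fun l => ?_, AddSubgroup.add_mem _ (hQaΛ _) (mem_sub.1 h2.2).1⟩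
      have h3 := hQabd q.1 l
      have h4 := h2.1 l
      have h5 := abs_add_le (Qa q.1 l) (q.2 l)
      show |Qa q.1 l + q.2 l| ≤ _
      push_cast
      linarith
    · intro q hq q' hq' hqq
      have h1 := mem_product.1 (mem_coe.1 hq)
      have h2 := mem_product.1 (mem_coe.1 hq')
      have h3 := (mem_sub.1 (mem_pts.1 h1.2).2).2
      have h4 := (mem_sub.1 (mem_pts.1 h2.2).2).2
      have h5 : Qa q.1 + q.2 = Qa q'.1 + q'.2 := hqq
      have h6 := hQaev q.1
      have h7 := hQaev q'.1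
      have h8 : ev (Qa q.1) z + ev q.2 z = ev (Qa q'.1) z + ev q'.2 z := by
        rw [← ev_add, ← ev_add, h5]
      have h9 : M ∣ ((q.1 : ℤ) - q'.1) * g := by
        have h10 : ((q.1 : ℤ) - q'.1) * g = (ev (Qa q'.1) z - q'.1 * g) - (ev (Qa q.1) z - q.1 * g) +
            (ev q'.2 z - ev q.2 z) := by
          have h11 : ev (Qa q.1) z = ev (Qa q'.1) z + ev q'.2 z - ev q.2 z := by linarith
          rw [h11]; ring
        rw [h10]
        exact dvd_add (dvd_sub h7 h6) (dvd_sub h4 h3)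
      have h12 : q.1 = q'.1 := by
        have h13 : (((q.1 : ℤ) - q'.1) * g) = 0 := by
          refine Int.eq_zero_of_abs_lt_dvd ((abs_dvd M _).2 h9) ?_
          rw [abs_mul]
          have h14 : |((q.1 : ℤ) - q'.1)| < I := by
            have a1 := mem_range.1 h1.1
            have a2 := mem_range.1 h2.1
            rw [abs_lt]
            constructor <;> omega
          have h15 : |(g : ℤ)| = g := abs_of_pos (by exact_mod_cast hg)
          rw [h15]
          have h16 : (I : ℤ) * g = |M| := by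
            rw [Int.abs_eq_natAbs, ← hIg]; push_cast; ring
          rw [← h16]
          exact mul_lt_mul_of_pos_right h14 (by exact_mod_cast hg)
        have h17 : (g : ℤ) ≠ 0 := by exact_mod_cast hg.ne'
        have h18 := (mul_eq_zero.1 h13).resolve_right h17
        omega
      have h19 : q.2 = q'.2 := by
        rw [h12] at h5
        exact add_left_cancel h5
      exact Prod.ext h12 h19
  refine hinj.trans ?_
  have h1 := hC d (d + 1) Λ R hR
  have h2 : 2 * (d + 1) + 1 = 2 * d + 3 := by ring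
  rw [h2] at h1
  exact h1

end Pool.Agent.N916.LV.Idx
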